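import Mathlib

/-!
Concurrent normals of convex bodies with symmetries (MP_00eb82_gt).

* If `K` is symmetric in `d - 1` hyperplanes with linearly independent normals, the hyperplanes
  meet in a line `ℓ`, and the midpoint `m` of the chord `K ∩ ℓ` lies on `2 d` normals: the two end
  points of the chord, and one point in each open half of each of the `d - 1` planes which are
  intersections of all but one of the hyperplanes (on such a half the distance from `m` takes the
  same value at both ends, so it has an extremum inside; a normal inside the plane is a normal of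
  `K` because the plane is the set of points fixed by some of the reflections).
* If all points other than `c` have at least `N` images under the symmetries of `K`, then the
  centroid lies on normals at the farthest and at the nearest boundary points, `N` of each.
* If the symmetries act irreducibly, these two sets have at least `d + 1` points each.
-/

namespace Pool.Agent.Results.MP_00eb82_gt.SymmetricBodies

open Set Metric MeasureTheory

section gen
variable {E : Type*} [NormedAddCommGroup E] [InnerProductSpace ℝ E]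

lemma frontier_of_support {K : Set E} {x u : E}
    (hx : x ∈ K) (hu : u ≠ 0) (h : ∀ y ∈ K, inner ℝ u (y - x) ≤ 0) : x ∈ frontier K := by
  refine ⟨subset_closure hx, fun hxi => ?_⟩
  obtain ⟨ε, hε, hsub⟩ := Metric.nhds_basis_closedBall.mem_iff.1 (mem_interior_iff_mem_nhds.1 hxi)
  have hun : 0 < ‖u‖ := norm_pos_iff.2 hu
  have hy : x + (ε / ‖u‖) • u ∈ K := hsub (by
    rw [mem_closedBall, dist_eq_norm, add_sub_cancel_left, norm_smul, Real.norm_eq_abs,
      abs_of_pos (div_pos hε hun), div_mul_cancel₀ _ hun.ne'])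
  have h1 := h _ hy
  rw [add_sub_cancel_left, inner_smul_right, real_inner_self_eq_norm_sq] at h1
  have : 0 < ε / ‖u‖ * ‖u‖ ^ 2 := by positivity
  linarith

lemma exists_fixed_max {K : Set E} (hK : IsCompact K) (hconv : Convex ℝ K) (hne : K.Nonempty)
    {ι : Type*} {v : ι → E} {b : ι → ℝ} (hv : ∀ i, v i ≠ 0)
    (href : ∀ i, ∀ x ∈ K, x - (2 * (inner ℝ (v i) x - b i) / ‖v i‖ ^ 2) • v i ∈ K)
    (J : Set ι) {p : E} (hpJ : ∀ j ∈ J, inner ℝ (v j) p = b j)
    (n : E) (hn : ∀ j ∈ J, inner ℝ (v j) n = 0) :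
    ∃ z ∈ K, (∀ j ∈ J, inner ℝ (v j) z = b j) ∧ ∀ y ∈ K, inner ℝ n y ≤ inner ℝ n z := by
  obtain ⟨z0, hz0, hmax⟩ := hK.exists_isMaxOn hne (f := fun y => inner ℝ n y)
    (Continuous.continuousOn (by fun_prop))
  set F : Set E := K ∩ {y | inner ℝ n y = inner ℝ n z0} with hF
  have hFc : IsCompact F := hK.inter_right (isClosed_eq (by fun_prop) continuous_const)
  obtain ⟨z, hz, hmin⟩ := hFc.exists_isMinOn ⟨z0, hz0, rfl⟩ (f := fun y => ‖y - p‖ ^ 2)
    (Continuous.continuousOn (by fun_prop))
  refine ⟨z, hz.1, fun j hj => ?_, fun y hy => ?_⟩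
  · set t := (inner ℝ (v j) z - b j) / ‖v j‖ ^ 2 with ht
    set w := z - t • v j with hw
    have hvj : 0 < ‖v j‖ ^ 2 := by have := norm_pos_iff.2 (hv j); positivity
    have hwK : w ∈ K := by
      have h1 := href j z hz.1
      have h2 := hconv hz.1 h1 (by norm_num : (0:ℝ) ≤ 1/2) (by norm_num : (0:ℝ) ≤ 1/2)
        (by norm_num)
      have e : (2 * (inner ℝ (v j) z - b j) / ‖v j‖ ^ 2) = 2 * t := by rw [ht]; ring
      rw [e] at h2
      have e2 : (1 / 2 : ℝ) • z + (1 / 2 : ℝ) • (z - (2 * t) • v j) = w := by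
        rw [hw]; module
      rwa [e2] at h2
    have hwF : w ∈ F := by
      refine ⟨hwK, ?_⟩
      show inner ℝ n w = inner ℝ n z0
      have h1 : inner ℝ n (v j) = 0 := by rw [real_inner_comm]; exact hn j hj
      rw [hw, inner_sub_right, inner_smul_right, h1, mul_zero, sub_zero]
      exact hz.2
    have h3 : ‖z - p‖ ^ 2 ≤ ‖w - p‖ ^ 2 := hmin hwF
    have h4 : ‖w - p‖ ^ 2 = ‖z - p‖ ^ 2 - (inner ℝ (v j) z - b j) ^ 2 / ‖v j‖ ^ 2 := by
      have e1 : w - p = (z - p) - t • v j := by rw [hw]; abel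
      have e2 : inner ℝ (z - p) (v j) = inner ℝ (v j) z - b j := by
        rw [real_inner_comm, inner_sub_right, hpJ j hj]
      rw [e1, norm_sub_sq_real, inner_smul_right, e2, norm_smul, mul_pow, Real.norm_eq_abs, sq_abs,
        ht]
      field_simp
      ring
    have h5 : (inner ℝ (v j) z - b j) ^ 2 / ‖v j‖ ^ 2 ≤ 0 := by linarith
    have h6 : (inner ℝ (v j) z - b j) ^ 2 ≤ 0 := by
      rcases div_nonpos_iff.1 h5 with h | h
      · linarith [h.2]
      · exact h.1
    have h7 : inner ℝ (v j) z - b j = 0 := by nlinarith [sq_nonneg (inner ℝ (v j) z - b j)]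
    linarith
  · have h1 : inner ℝ n y ≤ inner ℝ n z0 := hmax hy
    have h2 : inner ℝ n z = inner ℝ n z0 := hz.2
    rw [h2]; exact h1

lemma max_case {K P : Set E} (hconv : Convex ℝ K)
    (hPa : ∀ x ∈ P, ∀ y ∈ P, ∀ t : ℝ, x + t • (y - x) ∈ P) {v : E} {b : ℝ} {m x : E}
    (hx : x ∈ K) (hxP : x ∈ P) (hxb : b < inner ℝ v x)
    (hmax : ∀ y ∈ K, y ∈ P → b ≤ inner ℝ v y → ‖y - m‖ ≤ ‖x - m‖) :
    ∀ y ∈ K, y ∈ P → inner ℝ (x - m) (y - x) ≤ 0 := by
  intro y hy hyP
  by_contra hpos
  push Not at hpos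
  set a : ℝ := inner ℝ v (y - x) with ha
  have hq : 0 < |a| + 1 := by positivity
  set t : ℝ := min 1 ((inner ℝ v x - b) / (|a| + 1)) with ht
  have ht0 : 0 < t := lt_min one_pos (div_pos (by linarith) hq)
  have ht1 : t ≤ 1 := min_le_left _ _
  have ht2 : t * (|a| + 1) ≤ inner ℝ v x - b := by
    rw [← le_div_iff₀ hq]; exact min_le_right _ _
  have hz : x + t • (y - x) ∈ K := hconv.add_smul_sub_mem hx hy ⟨ht0.le, ht1⟩
  have hb : b ≤ inner ℝ v (x + t • (y - x)) := by
    rw [inner_add_right, inner_smul_right, ← ha]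
    have := neg_abs_le a
    nlinarith
  have h1 := hmax _ hz (hPa x hxP y hyP t) hb
  have e : x + t • (y - x) - m = (x - m) + t • (y - x) := by abel
  rw [e] at h1
  have h2 : ‖(x - m) + t • (y - x)‖ ^ 2 ≤ ‖x - m‖ ^ 2 := by gcongr
  rw [norm_add_sq_real, inner_smul_right, norm_smul] at h2
  have : 0 < t * inner ℝ (x - m) (y - x) := mul_pos ht0 hpos
  nlinarith [sq_nonneg (‖t‖ * ‖y - x‖)]

lemma min_case {K P : Set E} (hK : IsClosed K) (hconv : Convex ℝ K)
    (hPa : ∀ x ∈ P, ∀ y ∈ P, ∀ t : ℝ, x + t • (y - x) ∈ P) {v : E} {b : ℝ} {m x : E}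
    (hm : m ∈ interior K) (hmP : m ∈ P) (hmb : inner ℝ v m = b)
    (hxf : x ∈ frontier K) (hxP : x ∈ P) (hxb : b < inner ℝ v x)
    (hmin : ∀ y ∈ frontier K, y ∈ P → b ≤ inner ℝ v y → ‖x - m‖ ≤ ‖y - m‖) :
    ∀ y ∈ K, y ∈ P → inner ℝ (x - m) (y - x) ≤ 0 := by
  have hball : ∀ z ∈ P, b ≤ inner ℝ v z → ‖z - m‖ < ‖x - m‖ → z ∈ interior K := by
    intro z hzP hzb hzd
    have hzK : z ∈ K := by
      by_contra hzK
      have hpre : IsPreconnected (segment ℝ m z) := (convex_segment m z).isPreconnected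
      obtain ⟨w, hw, hwf⟩ : (segment ℝ m z ∩ frontier K).Nonempty := by
        by_contra hemp
        rw [Set.not_nonempty_iff_eq_empty] at hemp
        have hsub : segment ℝ m z ⊆ interior K ∪ Kᶜ := by
          intro w hw
          by_cases h : w ∈ K
          · left
            by_contra hni
            have : w ∈ segment ℝ m z ∩ frontier K := ⟨hw, subset_closure h, hni⟩
            rw [hemp] at this
            exact this
          · right; exact h
        have := hpre (interior K) Kᶜ isOpen_interior hK.isOpen_compl hsub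
          ⟨m, left_mem_segment ℝ m z, hm⟩ ⟨z, right_mem_segment ℝ m z, hzK⟩
        obtain ⟨w, _, h1, h2⟩ := this
        exact h2 (interior_subset h1)
      rw [segment_eq_image'] at hw
      obtain ⟨t, ht, rfl⟩ := hw
      have h1 := hmin _ hwf (hPa m hmP z hzP t) (by
        simp only [inner_add_right, inner_smul_right, inner_sub_right, hmb]
        nlinarith [ht.1])
      rw [add_sub_cancel_left, norm_smul, Real.norm_eq_abs, abs_of_nonneg ht.1] at h1
      have : t * ‖z - m‖ ≤ ‖z - m‖ := by nlinarith [norm_nonneg (z - m), ht.2]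
      linarith
    by_contra hni
    have := hmin z ⟨subset_closure hzK, hni⟩ hzP hzb
    linarith
  intro y hy hyP
  by_contra hpos
  push Not at hpos
  set a : ℝ := inner ℝ v (y - x) with ha
  set A : ℝ := inner ℝ (x - m) (y - x) with hA
  have hq : 0 < |a| + 1 := by positivity
  have hq2 : 0 < ‖y - x‖ ^ 2 + 1 := by positivity
  set s : ℝ := min ((inner ℝ v x - b) / (|a| + 1)) (A / (‖y - x‖ ^ 2 + 1)) with hs
  have hs0 : 0 < s := lt_min (div_pos (by linarith) hq) (div_pos hpos hq2)
  have hs1 : s * (|a| + 1) ≤ inner ℝ v x - b := by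
    rw [← le_div_iff₀ hq]; exact min_le_left _ _
  have hs2 : s * (‖y - x‖ ^ 2 + 1) ≤ A := by
    rw [← le_div_iff₀ hq2]; exact min_le_right _ _
  have hqP : x + (-s) • (y - x) ∈ P := hPa x hxP y hyP (-s)
  have hqb : b ≤ inner ℝ v (x + (-s) • (y - x)) := by
    rw [inner_add_right, inner_smul_right, ← ha]
    have := le_abs_self a
    nlinarith
  have hqd : ‖x + (-s) • (y - x) - m‖ < ‖x - m‖ := by
    have e : x + (-s) • (y - x) - m = (x - m) + (-s) • (y - x) := by abel
    have h2 : ‖(x - m) + (-s) • (y - x)‖ ^ 2 < ‖x - m‖ ^ 2 := by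
      rw [norm_add_sq_real, inner_smul_right, norm_smul, ← hA, mul_pow, Real.norm_eq_abs, sq_abs]
      nlinarith [sq_nonneg ‖y - x‖]
    rw [e]
    exact lt_of_pow_lt_pow_left₀ 2 (norm_nonneg _) h2
  have hqi := hball _ hqP hqb hqd
  have hxi : x ∈ interior K := by
    have h1s : 0 < 1 + s := by linarith
    have h3 := hconv.combo_interior_self_mem_interior hqi hy (a := 1 / (1 + s))
      (b := s / (1 + s)) (by positivity) (by positivity) (by field_simp)
    have e : (1 / (1 + s)) • (x + (-s) • (y - x)) + (s / (1 + s)) • y = x := by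
      have e1 : (1 / (1 + s)) • (x + (-s) • (y - x)) + (s / (1 + s)) • y
        = ((1 + s) / (1 + s)) • x := by
        rw [show ((1 + s) / (1 + s)) = 1 / (1 + s) + s / (1 + s) by ring]
        rw [show (s / (1 + s)) = s * (1 / (1 + s)) by ring]
        module
      rw [e1, div_self h1s.ne', one_smul]
    rwa [e] at h3
  exact hxf.2 hxi

lemma crit_half {K P : Set E} (hK : IsCompact K) (hconv : Convex ℝ K) (hPc : IsClosed P)
    (hPa : ∀ x ∈ P, ∀ y ∈ P, ∀ t : ℝ, x + t • (y - x) ∈ P) {v : E} {b ρ : ℝ} {m : E}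
    (hm : m ∈ interior K) (hmP : m ∈ P) (hmb : inner ℝ v m = b)
    (h1 : ∀ x ∈ K, x ∈ P → inner ℝ v x = b → ‖x - m‖ ≤ ρ)
    (h2 : ∀ x ∈ frontier K, x ∈ P → inner ℝ v x = b → ρ ≤ ‖x - m‖)
    {z : E} (hzP : z ∈ P) (hzb : b < inner ℝ v z) (hzf : z ∈ frontier K) :
    ∃ x ∈ K, x ∈ P ∧ b < inner ℝ v x ∧ ∀ y ∈ K, y ∈ P → inner ℝ (x - m) (y - x) ≤ 0 := by
  have hfK : frontier K ⊆ K := hK.isClosed.frontier_subset
  have hhalf : IsClosed {x : E | b ≤ inner ℝ v x} := isClosed_le continuous_const (by fun_prop)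
  by_cases hD : ρ ≤ ‖z - m‖
  · have hc : IsCompact (K ∩ (P ∩ {x : E | b ≤ inner ℝ v x})) := hK.inter_right (hPc.inter hhalf)
    obtain ⟨x1, hx1, hmax⟩ := hc.exists_isMaxOn ⟨z, hfK hzf, hzP, hzb.le⟩
      (f := fun y => ‖y - m‖) (Continuous.continuousOn (by fun_prop))
    have hmax' : ∀ y ∈ K, y ∈ P → b ≤ inner ℝ v y → ‖y - m‖ ≤ ‖x1 - m‖ :=
      fun y hy hyP hyb => hmax ⟨hy, hyP, hyb⟩
    have hx1b : b ≤ inner ℝ v x1 := hx1.2.2
    rcases hx1b.lt_or_eq with h | h
    · exact ⟨x1, hx1.1, hx1.2.1, h, max_case hconv hPa hx1.1 hx1.2.1 h hmax'⟩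
    · have h3 := h1 x1 hx1.1 hx1.2.1 h.symm
      exact ⟨z, hfK hzf, hzP, hzb, max_case hconv hPa (hfK hzf) hzP hzb
        (fun y hy hyP hyb => (hmax' y hy hyP hyb).trans (h3.trans hD))⟩
  · push Not at hD
    have hc : IsCompact (frontier K ∩ (P ∩ {x : E | b ≤ inner ℝ v x})) :=
      (hK.of_isClosed_subset isClosed_frontier hfK).inter_right (hPc.inter hhalf)
    obtain ⟨x2, hx2, hmin⟩ := hc.exists_isMinOn ⟨z, hzf, hzP, hzb.le⟩
      (f := fun y => ‖y - m‖) (Continuous.continuousOn (by fun_prop))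
    have hmin' : ∀ y ∈ frontier K, y ∈ P → b ≤ inner ℝ v y → ‖x2 - m‖ ≤ ‖y - m‖ :=
      fun y hy hyP hyb => hmin ⟨hy, hyP, hyb⟩
    have h4 := hmin' z hzf hzP hzb.le
    have hx2b : b ≤ inner ℝ v x2 := hx2.2.2
    rcases hx2b.lt_or_eq with h | h
    · exact ⟨x2, hfK hx2.1, hx2.2.1, h,
        min_case hK.isClosed hconv hPa hm hmP hmb hx2.1 hx2.2.1 h hmin'⟩
    · have h3 := h2 x2 hx2.1 hx2.2.1 h.symm
      linarith

lemma seg_frontier {K : Set E} (hK : IsClosed K) {m z : E} (hm : m ∈ interior K) (hz : z ∉ K) :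
    ∃ t : ℝ, 0 < t ∧ t ≤ 1 ∧ m + t • (z - m) ∈ frontier K := by
  have hpre : IsPreconnected (segment ℝ m z) := (convex_segment m z).isPreconnected
  obtain ⟨w, hw, hwf⟩ : (segment ℝ m z ∩ frontier K).Nonempty := by
    by_contra hemp
    rw [Set.not_nonempty_iff_eq_empty] at hemp
    have hsub : segment ℝ m z ⊆ interior K ∪ Kᶜ := by
      intro w hw
      by_cases h : w ∈ K
      · left
        by_contra hni
        have : w ∈ segment ℝ m z ∩ frontier K := ⟨hw, subset_closure h, hni⟩
        rw [hemp] at this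
        exact this
      · right; exact h
    have := hpre (interior K) Kᶜ isOpen_interior hK.isOpen_compl hsub
      ⟨m, left_mem_segment ℝ m z, hm⟩ ⟨z, right_mem_segment ℝ m z, hz⟩
    obtain ⟨w, _, h1, h2⟩ := this
    exact h2 (interior_subset h1)
  rw [segment_eq_image'] at hw
  obtain ⟨t, ht, rfl⟩ := hw
  refine ⟨t, lt_of_le_of_ne ht.1 ?_, ht.2, hwf⟩
  rintro rfl
  apply hwf.2
  simpa using hm

end gen

/-- `p` lies on some normal of `K` at the boundary point `x`: the hyperplane through `x`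
orthogonal to `u ≠ 0` supports `K`, and the line through `x` in direction `u` contains `p`. -/
def OnNormal {d : ℕ} (K : Set (EuclideanSpace ℝ (Fin d))) (p x : EuclideanSpace ℝ (Fin d)) :
    Prop :=
  x ∈ frontier K ∧ ∃ u : EuclideanSpace ℝ (Fin d), u ≠ 0 ∧
    (∀ y ∈ K, inner ℝ u (y - x) ≤ 0) ∧ ∃ c : ℝ, p = x + c • u

/-- `K` has a `k`-normal point: an interior point lying on normals of `K` at `k` pairwise distinct
boundary points. -/
def HasNormalPoint {d : ℕ} (K : Set (EuclideanSpace ℝ (Fin d))) (k : ℕ) : Prop :=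
  ∃ p ∈ interior K, ∃ S : Finset (EuclideanSpace ℝ (Fin d)), S.card = k ∧ ∀ x ∈ S, OnNormal K p x

/-- centroid -/
noncomputable def cen {d : ℕ} (K : Set (EuclideanSpace ℝ (Fin d))) : EuclideanSpace ℝ (Fin d) :=
  ⨍ y in K, y

section main
variable {d : ℕ}

lemma cen_fixed {K : Set (EuclideanSpace ℝ (Fin d))} (hK : IsCompact K) (hpos : volume K ≠ 0)
    (L : EuclideanSpace ℝ (Fin d) ≃ₗᵢ[ℝ] EuclideanSpace ℝ (Fin d))
    (w : EuclideanSpace ℝ (Fin d)) (hg : ∀ x, L x + w ∈ K ↔ x ∈ K) :
    L (cen K) + w = cen K := by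
  have hint : IntegrableOn (fun y : EuclideanSpace ℝ (Fin d) => y) K volume :=
    continuous_id.continuousOn.integrableOn_compact hK
  have hfin : volume K ≠ ⊤ := hK.measure_lt_top.ne
  have hreal : (volume.real K) ≠ 0 := by
    rw [Measure.real, ENNReal.toReal_ne_zero]; exact ⟨hpos, hfin⟩
  have hmp : MeasurePreserving (fun x : EuclideanSpace ℝ (Fin d) => L x + w) volume volume := by
    have h1 : MeasurePreserving (fun x : EuclideanSpace ℝ (Fin d) => L x) volume volume :=
      L.measurePreserving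
    have h2 : MeasurePreserving (fun x : EuclideanSpace ℝ (Fin d) => x + w) volume volume :=
      measurePreserving_add_right volume w
    exact h2.comp h1
  have hemb : MeasurableEmbedding (fun x : EuclideanSpace ℝ (Fin d) => L x + w) :=
    (L.toHomeomorph.trans (Homeomorph.addRight w)).measurableEmbedding
  have hpre : (fun x : EuclideanSpace ℝ (Fin d) => L x + w) ⁻¹' K = K := by
    ext x; exact hg x
  have h1 : ∫ x in K, (L x + w) = ∫ y in K, y := by
    have := hmp.setIntegral_preimage_emb hemb (fun y => y) K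
    rw [hpre] at this
    exact this
  have h2 : ∫ x in K, (L x + w) = L (∫ x in K, x) + (volume.real K) • w := by
    rw [integral_add]
    · congr 1
      · exact (L.toContinuousLinearEquiv.integral_comp_comm _)
      · simp
    · exact (L.continuous.continuousOn).integrableOn_compact hK
    · exact continuous_const.continuousOn.integrableOn_compact hK
  have h3 : cen K = (volume.real K)⁻¹ • ∫ x in K, x := by
    rw [cen, setAverage_eq]
  have h4 : L (∫ x in K, x) + (volume.real K) • w = ∫ y in K, y := h2.symm.trans h1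
  rw [h3, map_smul]
  conv_rhs => rw [← h4]
  rw [smul_add, smul_smul, inv_mul_cancel₀ hreal, one_smul]

lemma cen_mem {K : Set (EuclideanSpace ℝ (Fin d))} (hK : IsCompact K) (hconv : Convex ℝ K)
    (hint : (interior K).Nonempty) : cen K ∈ interior K := by
  obtain ⟨q, hq⟩ := hint
  obtain ⟨ε, hε, hsub⟩ := Metric.nhds_basis_closedBall.mem_iff.1 (isOpen_interior.mem_nhds hq)
  have hfin : IsFiniteMeasure (volume.restrict K) := ⟨by
    rw [Measure.restrict_apply_univ]; exact hK.measure_lt_top⟩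
  have hsubK : closedBall q ε ⊆ K := hsub.trans interior_subset
  have hres : (volume.restrict K).restrict (closedBall q ε) = volume.restrict (closedBall q ε) := by
    rw [Measure.restrict_restrict isClosed_closedBall.measurableSet,
      Set.inter_eq_left.2 hsubK]
  have hpos : volume (closedBall q ε) ≠ 0 := (measure_closedBall_pos volume q hε).ne'
  refine hconv.average_mem_interior_of_set (μ := volume.restrict K) (t := closedBall q ε)
    (f := fun y => y) ?_ ?_ ?_ ?_
  · rw [Measure.restrict_apply isClosed_closedBall.measurableSet, Set.inter_eq_left.2 hsubK]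
    exact hpos
  · exact ae_restrict_mem hK.measurableSet
  · exact continuous_id.continuousOn.integrableOn_compact hK
  · rw [hres]
    apply hsub
    refine (convex_closedBall q ε).set_average_mem isClosed_closedBall hpos
      (isCompact_closedBall q ε).measure_lt_top.ne
      (ae_restrict_mem isClosed_closedBall.measurableSet) ?_
    exact continuous_id.continuousOn.integrableOn_compact (isCompact_closedBall q ε)

lemma cen_mirror {K : Set (EuclideanSpace ℝ (Fin d))} (hK : IsCompact K)
    (hpos : volume K ≠ 0) {v : EuclideanSpace ℝ (Fin d)} {b : ℝ} (hv : v ≠ 0)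
    (href : ∀ x ∈ K, x - (2 * (inner ℝ v x - b) / ‖v‖ ^ 2) • v ∈ K) :
    inner ℝ v (cen K) = b := by
  have hvn : ‖v‖ ^ 2 ≠ 0 := by have := norm_pos_iff.2 hv; positivity
  set L := (ℝ ∙ v)ᗮ.reflection with hL
  set w : EuclideanSpace ℝ (Fin d) := (2 * b / ‖v‖ ^ 2) • v with hw
  have hform : ∀ x, L x + w = x - (2 * (inner ℝ v x - b) / ‖v‖ ^ 2) • v := by
    intro x
    rw [hL, Submodule.reflection_orthogonal_apply, Submodule.reflection_singleton_apply, hw]
    rw [show (2 * (inner ℝ v x - b) / ‖v‖ ^ 2) = 2 * (inner ℝ v x / ‖v‖ ^ 2) - 2 * b / ‖v‖ ^ 2 by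
      ring]
    simp only [RCLike.ofReal_real_eq_id, id_eq]
    module
  have hinv : ∀ x, (L (L x + w) + w) = x := by
    intro x
    rw [hform, hform]
    have e : inner ℝ v (x - (2 * (inner ℝ v x - b) / ‖v‖ ^ 2) • v) = 2 * b - inner ℝ v x := by
      rw [inner_sub_right, inner_smul_right, real_inner_self_eq_norm_sq]
      field_simp
      ring
    rw [e]
    rw [show (2 * (2 * b - inner ℝ v x - b) / ‖v‖ ^ 2) = - (2 * (inner ℝ v x - b) / ‖v‖ ^ 2) by
      ring]
    module
  have hg : ∀ x, L x + w ∈ K ↔ x ∈ K := by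
    intro x
    constructor
    · intro h
      have := href _ h
      rw [← hform, hinv] at this
      exact this
    · intro h
      rw [hform]; exact href x h
  have h := cen_fixed hK hpos L w hg
  rw [hform] at h
  have h1 : (2 * (inner ℝ v (cen K) - b) / ‖v‖ ^ 2) • v = 0 := by
    have := sub_eq_self.1 h
    exact this
  rcases smul_eq_zero.1 h1 with h2 | h2
  · rw [div_eq_zero_iff] at h2
    rcases h2 with h2 | h2
    · linarith
    · exact absurd h2 hvn
  · exact absurd h2 hv

lemma exists_axis (hd : 2 ≤ d) (v : Fin (d - 1) → EuclideanSpace ℝ (Fin d))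
    (hv : LinearIndependent ℝ v) :
    ∃ e : EuclideanSpace ℝ (Fin d), ‖e‖ = 1 ∧ (∀ i, inner ℝ (v i) e = 0) ∧
      ∀ w, (∀ i, inner ℝ (v i) w = 0) → ∃ t : ℝ, w = t • e := by
  set U := Submodule.span ℝ (Set.range v) with hU
  have hfU : Module.finrank ℝ U = d - 1 := by
    rw [hU, finrank_span_eq_card hv, Fintype.card_fin]
  have hfo : Module.finrank ℝ Uᗮ = 1 := by
    have := U.finrank_add_finrank_orthogonal
    rw [hfU, finrank_euclideanSpace_fin] at this
    omega
  obtain ⟨⟨e0, he0⟩, hne, hsp⟩ := finrank_eq_one_iff'.1 hfo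
  have he0n : e0 ≠ 0 := fun h => hne (by ext1; exact h)
  have hn : 0 < ‖e0‖ := norm_pos_iff.2 he0n
  have hmem : ∀ w, (∀ i, inner ℝ (v i) w = 0) → w ∈ Uᗮ := by
    intro w hw
    rw [Submodule.mem_orthogonal]
    intro u hu
    rw [hU] at hu
    induction hu using Submodule.span_induction with
    | mem x hx => obtain ⟨i, rfl⟩ := hx; exact hw i
    | zero => simp
    | add x y _ _ hx hy => rw [inner_add_left, hx, hy, add_zero]
    | smul a x _ hx => rw [inner_smul_left, hx, mul_zero]
  refine ⟨(‖e0‖)⁻¹ • e0, ?_, ?_, ?_⟩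
  · rw [norm_smul, norm_inv, norm_norm, inv_mul_cancel₀ hn.ne']
  · intro i
    rw [inner_smul_right, (Submodule.mem_orthogonal U e0).1 he0 (v i)
      (Submodule.subset_span ⟨i, rfl⟩), mul_zero]
  · intro w hw
    obtain ⟨c, hc⟩ := hsp ⟨w, hmem w hw⟩
    have hc' : c • e0 = w := congrArg Subtype.val hc
    refine ⟨c * ‖e0‖, ?_⟩
    rw [smul_smul, mul_assoc, mul_inv_cancel₀ hn.ne', mul_one, hc']

lemma exists_dual (v : Fin (d - 1) → EuclideanSpace ℝ (Fin d))
    (hv : LinearIndependent ℝ v) (i : Fin (d - 1)) :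
    ∃ w : EuclideanSpace ℝ (Fin d), 0 < inner ℝ (v i) w ∧ ∀ j, j ≠ i → inner ℝ (v j) w = 0 := by
  set W := Submodule.span ℝ (v '' {i}ᶜ) with hW
  have h1 : v i ∉ W := hv.notMem_span_image (s := {i}ᶜ) (by simp)
  have h2 : v i ∉ Wᗮᗮ := by rwa [Submodule.orthogonal_orthogonal]
  rw [Submodule.mem_orthogonal] at h2
  push Not at h2
  obtain ⟨w, hw, hne⟩ := h2
  have horth : ∀ j, j ≠ i → inner ℝ (v j) w = 0 := fun j hj =>
    (Submodule.mem_orthogonal W w).1 hw (v j) (Submodule.subset_span ⟨j, by simpa using hj, rfl⟩)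
  rw [real_inner_comm] at hne
  rcases lt_or_gt_of_ne hne with h | h
  · refine ⟨-w, by rw [inner_neg_right]; linarith, fun j hj => ?_⟩
    rw [inner_neg_right, horth j hj, neg_zero]
  · exact ⟨w, h, horth⟩

theorem mirrors (hd : 2 ≤ d) {K : Set (EuclideanSpace ℝ (Fin d))}
    (hK : IsCompact K) (hconv : Convex ℝ K) (hint : (interior K).Nonempty)
    (v : Fin (d - 1) → EuclideanSpace ℝ (Fin d)) (hv : LinearIndependent ℝ v)
    (b : Fin (d - 1) → ℝ)
    (href : ∀ i, ∀ x ∈ K, x - (2 * (inner ℝ (v i) x - b i) / ‖v i‖ ^ 2) • v i ∈ K) :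
    HasNormalPoint K (2 * d) := by
  classical
  have hv0 : ∀ i, v i ≠ 0 := hv.ne_zero
  have hne : K.Nonempty := hint.mono interior_subset
  have hpos : volume K ≠ 0 := ((isOpen_interior.measure_pos volume hint).trans_le
    (measure_mono interior_subset)).ne'
  obtain ⟨c, hci, hcb⟩ : ∃ c ∈ interior K, ∀ i, inner ℝ (v i) c = b i :=
    ⟨cen K, cen_mem hK hconv hint, fun i => cen_mirror hK hpos (hv0 i) (href i)⟩
  obtain ⟨e, he1, heo, hesp⟩ := exists_axis hd v hv
  have hee : inner ℝ e e = (1 : ℝ) := by rw [real_inner_self_eq_norm_sq, he1]; norm_num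
  -- every point of the axis has a parameter
  have hpar : ∀ x : EuclideanSpace ℝ (Fin d), (∀ j, inner ℝ (v j) x = b j) →
      ∃ t : ℝ, x = c + t • e := by
    intro x hx
    obtain ⟨t, ht⟩ := hesp (x - c) (fun i => by rw [inner_sub_right, hx, hcb, sub_self])
    exact ⟨t, by rw [← ht]; abel⟩
  have hparb : ∀ t : ℝ, ∀ j, inner ℝ (v j) (c + t • e) = b j := by
    intro t j
    rw [inner_add_right, inner_smul_right, heo, hcb, mul_zero, add_zero]
  obtain ⟨q, hqK, hqb, hqmax⟩ := exists_fixed_max hK hconv hne hv0 href Set.univ (p := c)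
    (fun j _ => hcb j) e (fun j _ => heo j)
  obtain ⟨a, haK, hab, hamax⟩ := exists_fixed_max hK hconv hne hv0 href Set.univ (p := c)
    (fun j _ => hcb j) (-e) (fun j _ => by rw [inner_neg_right, heo, neg_zero])
  obtain ⟨β, hβ⟩ := hpar q (fun j => hqb j (Set.mem_univ j))
  obtain ⟨α, hα⟩ := hpar a (fun j => hab j (Set.mem_univ j))
  have hle : ∀ t : ℝ, c + t • e ∈ K → t ≤ β := by
    intro t ht
    have := hqmax _ ht
    rw [hβ, inner_add_right, inner_add_right, inner_smul_right, inner_smul_right, hee] at this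
    linarith
  have hge : ∀ t : ℝ, c + t • e ∈ K → α ≤ t := by
    intro t ht
    have := hamax _ ht
    rw [hα, inner_neg_left, inner_neg_left, inner_add_right, inner_add_right, inner_smul_right,
      inner_smul_right, hee] at this
    linarith
  obtain ⟨ε, hε, hεK⟩ := Metric.nhds_basis_closedBall.mem_iff.1 (mem_interior_iff_mem_nhds.1 hci)
  have hβ0 : 0 < β := by
    refine lt_of_lt_of_le hε (hle ε (hεK ?_))
    rw [mem_closedBall, dist_eq_norm, add_sub_cancel_left, norm_smul, he1, Real.norm_eq_abs,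
      abs_of_pos hε, mul_one]
  have hα0 : α < 0 := by
    have h := hge (-ε) (hεK (by
      rw [mem_closedBall, dist_eq_norm, add_sub_cancel_left, norm_smul, he1, Real.norm_eq_abs,
        abs_neg, abs_of_pos hε, mul_one]))
    linarith
  have hin : ∀ t : ℝ, α < t → t < β → c + t • e ∈ interior K := by
    intro t h1 h2
    rcases le_or_gt 0 t with h0 | h0
    · have h3 := hconv.combo_interior_self_mem_interior hci hqK (a := 1 - t / β) (b := t / β)
        (by rw [sub_pos, div_lt_one hβ0]; exact h2) (by positivity) (by ring)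
      have e1 : (1 - t / β) • c + (t / β) • q = c + t • e := by
        rw [hβ, smul_add, smul_smul, div_mul_cancel₀ _ hβ0.ne']
        module
      rwa [e1] at h3
    · have h3 := hconv.combo_interior_self_mem_interior hci haK (a := 1 - t / α) (b := t / α)
        (by rw [sub_pos, div_lt_one_of_neg hα0]; exact h1) (div_nonneg_of_nonpos h0.le hα0.le)
        (by ring)
      have e1 : (1 - t / α) • c + (t / α) • a = c + t • e := by
        rw [hα, smul_add, smul_smul, div_mul_cancel₀ _ hα0.ne]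
        module
      rwa [e1] at h3
  set γ : ℝ := (α + β) / 2 with hγ
  set ρ : ℝ := (β - α) / 2 with hρ
  set m := c + γ • e with hm
  have hmi : m ∈ interior K := hin γ (by rw [hγ]; linarith) (by rw [hγ]; linarith)
  have hmb : ∀ j, inner ℝ (v j) m = b j := hparb γ
  have hdist : ∀ t : ℝ, ‖(c + t • e) - m‖ = |t - γ| := by
    intro t
    have : (c + t • e) - m = (t - γ) • e := by rw [hm]; module
    rw [this, norm_smul, he1, mul_one, Real.norm_eq_abs]
  have hf1 : ∀ x ∈ K, (∀ j, inner ℝ (v j) x = b j) → ‖x - m‖ ≤ ρ := by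
    intro x hx hxb
    obtain ⟨t, rfl⟩ := hpar x hxb
    rw [hdist, abs_le]
    have h1 := hle t hx
    have h2 := hge t hx
    constructor <;> rw [hγ, hρ] <;> linarith
  have hf2 : ∀ x ∈ frontier K, (∀ j, inner ℝ (v j) x = b j) → ρ ≤ ‖x - m‖ := by
    intro x hx hxb
    obtain ⟨t, rfl⟩ := hpar x hxb
    rw [hdist]
    by_contra hcon
    push Not at hcon
    rw [abs_lt] at hcon
    apply hx.2
    apply hin
    · have := hcon.1; rw [hγ, hρ] at this; linarith
    · have := hcon.2; rw [hγ, hρ] at this; linarith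
  -- the two end points
  have he0 : e ≠ 0 := by intro h; rw [h, norm_zero] at he1; exact zero_ne_one he1
  have hqN : OnNormal K m q := by
    have hs : ∀ y ∈ K, inner ℝ e (y - q) ≤ 0 := fun y hy => by
      rw [inner_sub_right]; linarith [hqmax y hy]
    refine ⟨frontier_of_support hqK he0 hs, e, he0, hs, γ - β, ?_⟩
    rw [hβ, hm]; module
  have haN : OnNormal K m a := by
    have hs : ∀ y ∈ K, inner ℝ (-e) (y - a) ≤ 0 := fun y hy => by
      rw [inner_sub_right]; linarith [hamax y hy]
    refine ⟨frontier_of_support haK (neg_ne_zero.2 he0) hs, -e, neg_ne_zero.2 he0, hs, α - γ, ?_⟩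
    rw [hα, hm]; module
  -- one point in each open half plane
  have hhalf : ∀ (i : Fin (d - 1)) (σ : ℝ), σ ≠ 0 → ∃ x, OnNormal K m x ∧
      (∀ j, j ≠ i → inner ℝ (v j) x = b j) ∧ 0 < σ * (inner ℝ (v i) x - b i) := by
    intro i σ hσ
    obtain ⟨w, hw1, hw2⟩ := exists_dual v hv i
    set P : Set (EuclideanSpace ℝ (Fin d)) := {x | ∀ j, j ≠ i → inner ℝ (v j) x = b j} with hP
    have hPc : IsClosed P := by
      have : P = ⋂ j, ⋂ (_ : j ≠ i), {x | inner ℝ (v j) x = b j} := by
        ext x; simp [hP]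
      rw [this]
      exact isClosed_iInter fun j => isClosed_iInter fun _ =>
        isClosed_eq (by fun_prop) continuous_const
    have hPa : ∀ x ∈ P, ∀ y ∈ P, ∀ t : ℝ, x + t • (y - x) ∈ P := by
      intro x hx y hy t j hj
      rw [inner_add_right, inner_smul_right, inner_sub_right, hx j hj, hy j hj, sub_self, mul_zero,
        add_zero]
    have hmP : m ∈ P := fun j _ => hmb j
    -- a point outside in direction σ • w
    have hw0 : w ≠ 0 := by rintro rfl; simp at hw1
    have hσw : σ • w ≠ 0 := smul_ne_zero hσ hw0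
    obtain ⟨R, hR⟩ := hK.isBounded.exists_norm_le
    have hnw : 0 < ‖σ • w‖ := norm_pos_iff.2 hσw
    have hR0 : 0 ≤ R := (norm_nonneg _).trans (hR m (interior_subset hmi))
    have hout : m + ((R + ‖m‖ + 1) / ‖σ • w‖) • (σ • w) ∉ K := by
      intro h
      have h1 := hR _ h
      have h2 : ‖((R + ‖m‖ + 1) / ‖σ • w‖) • (σ • w)‖ = R + ‖m‖ + 1 := by
        rw [norm_smul, norm_div, norm_norm, div_mul_cancel₀ _ hnw.ne', Real.norm_eq_abs,
          abs_of_pos (by positivity)]
      have h3 := norm_sub_le (m + ((R + ‖m‖ + 1) / ‖σ • w‖) • (σ • w)) m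
      rw [add_sub_cancel_left, h2] at h3
      linarith
    obtain ⟨t, ht0, _, htf⟩ := seg_frontier hK.isClosed hmi hout
    rw [add_sub_cancel_left, smul_smul, smul_smul] at htf
    set τ : ℝ := t * ((R + ‖m‖ + 1) / ‖σ • w‖) with hτ
    have hτ0 : 0 < τ := by positivity
    have hzP : m + (t * ((R + ‖m‖ + 1) / ‖σ • w‖) * σ) • w ∈ P := by
      intro j hj
      rw [inner_add_right, inner_smul_right, hw2 j hj, hmb, mul_zero, add_zero]
    have hzb : σ * b i < inner ℝ (σ • v i) (m + (t * ((R + ‖m‖ + 1) / ‖σ • w‖) * σ) • w) := by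
      rw [real_inner_smul_left, inner_add_right, inner_smul_right, hmb, ← hτ]
      have : 0 < τ * (σ * σ) * inner ℝ (v i) w := by
        have : 0 < σ * σ := mul_self_pos.2 hσ
        positivity
      nlinarith
    have hall : ∀ x : EuclideanSpace ℝ (Fin d), x ∈ P → inner ℝ (σ • v i) x = σ * b i →
        ∀ j, inner ℝ (v j) x = b j := by
      intro x hx hxi j
      by_cases hj : j = i
      · rw [real_inner_smul_left] at hxi
        rw [hj]; exact mul_left_cancel₀ hσ hxi
      · exact hx j hj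
    obtain ⟨x, hxK, hxP, hxb, hxs⟩ := crit_half hK hconv hPc hPa (v := σ • v i) (b := σ * b i)
      (ρ := ρ) hmi hmP (by rw [real_inner_smul_left, hmb])
      (fun x hx hxP hxi => hf1 x hx (hall x hxP hxi))
      (fun x hx hxP hxi => hf2 x hx (hall x hxP hxi)) hzP hzb htf
    rw [real_inner_smul_left] at hxb
    have hxm : x - m ≠ 0 := by
      intro h
      rw [sub_eq_zero.1 h, hmb] at hxb
      exact lt_irrefl _ hxb
    -- lift
    obtain ⟨z, hzK, hzJ, hzmax⟩ := exists_fixed_max hK hconv hne hv0 href {j | j ≠ i} (p := m)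
      (fun j _ => hmb j) (x - m) (fun j hj => by rw [inner_sub_right, hxP j hj, hmb, sub_self])
    have hs : ∀ y ∈ K, inner ℝ (x - m) (y - x) ≤ 0 := by
      intro y hy
      have h1 := hzmax y hy
      have h2 := hxs z hzK hzJ
      rw [inner_sub_right] at h2 ⊢
      linarith
    refine ⟨x, ⟨frontier_of_support hxK hxm hs, x - m, hxm, hs, -1, by module⟩, hxP, ?_⟩
    linarith
  choose X hXN hXP hXσ using fun (i : Fin (d - 1)) (s : Bool) =>
    hhalf i (if s then 1 else -1) (by split_ifs <;> norm_num)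
  have hXne : ∀ i s, inner ℝ (v i) (X i s) ≠ b i := by
    intro i s h
    have := hXσ i s
    rw [h, sub_self, mul_zero] at this
    exact lt_irrefl _ this
  let Y : (Fin (d - 1) × Bool) ⊕ Bool → EuclideanSpace ℝ (Fin d) :=
    Sum.elim (fun z => X z.1 z.2) (fun s => cond s q a)
  have hYb : ∀ (s : Bool) (j), inner ℝ (v j) (cond s q a) = b j := by
    intro s j
    cases s
    · exact hab j (Set.mem_univ j)
    · exact hqb j (Set.mem_univ j)
  have hqa : q ≠ a := by
    intro h
    have h1 : c + β • e = c + α • e := by rw [← hβ, ← hα, h]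
    have h2 : (β - α) • e = 0 := by
      have := add_left_cancel h1
      rw [sub_smul, this, sub_self]
    rcases smul_eq_zero.1 h2 with h3 | h3
    · linarith
    · exact he0 h3
  have hYinj : Function.Injective Y := by
    rintro (⟨i, s⟩ | s) (⟨j, s'⟩ | s') h
    · have h : X i s = X j s' := h
      by_cases hij : i = j
      · subst hij
        congr 2
        by_contra hss
        have h1 := hXσ i s
        have h2 := hXσ i s'
        rw [← h] at h2
        cases s <;> cases s' <;> simp at hss h1 h2 <;> linarith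
      · exact absurd (by rw [h]; exact hXP j s' i hij) (hXne i s)
    · have h : X i s = (cond s' q a) := h
      exact absurd (by rw [h]; exact hYb s' i) (hXne i s)
    · have h : (cond s q a) = X j s' := h
      exact absurd (by rw [← h]; exact hYb s j) (hXne j s')
    · have h : (cond s q a) = (cond s' q a) := h
      cases s <;> cases s' <;> simp at h ⊢
      · exact hqa h.symm
      · exact hqa h
  refine ⟨m, hmi, Finset.univ.image Y, ?_, ?_⟩
  · rw [Finset.card_image_of_injective _ hYinj, Finset.card_univ, Fintype.card_sum,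
      Fintype.card_prod, Fintype.card_fin, Fintype.card_bool]
    omega
  · intro x hx
    rw [Finset.mem_image] at hx
    obtain ⟨(⟨i, s⟩ | s), _, rfl⟩ := hx
    · exact hXN i s
    · show OnNormal K m (cond s q a)
      cases s
      · simpa using haN
      · simpa using hqN

/-- The group of isometries of the space which map `K` onto itself acts irreducibly: no linear
subspace other than `0` and the whole space is preserved by the linear parts of all of them. -/
def SymmIrreducible (K : Set (EuclideanSpace ℝ (Fin d))) : Prop :=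
  ∀ V : Submodule ℝ (EuclideanSpace ℝ (Fin d)),
    (∀ g : EuclideanSpace ℝ (Fin d) ≃ᵃⁱ[ℝ] EuclideanSpace ℝ (Fin d), g '' K = K →
      ∀ v ∈ V, g.linearIsometryEquiv v ∈ V) → V = ⊥ ∨ V = ⊤

lemma g_apply (g : EuclideanSpace ℝ (Fin d) ≃ᵃⁱ[ℝ] EuclideanSpace ℝ (Fin d))
    (x : EuclideanSpace ℝ (Fin d)) : g x = g.linearIsometryEquiv x + g 0 := by
  have := g.map_vadd 0 x
  simpa using this

lemma g_sub (g : EuclideanSpace ℝ (Fin d) ≃ᵃⁱ[ℝ] EuclideanSpace ℝ (Fin d))
    (x y : EuclideanSpace ℝ (Fin d)) : g.linearIsometryEquiv (x - y) = g x - g y := by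
  rw [g_apply g x, g_apply g y, map_sub]; abel

lemma g_cen {K : Set (EuclideanSpace ℝ (Fin d))} (hK : IsCompact K) (hpos : volume K ≠ 0)
    (g : EuclideanSpace ℝ (Fin d) ≃ᵃⁱ[ℝ] EuclideanSpace ℝ (Fin d)) (hg : g '' K = K) :
    g (cen K) = cen K := by
  rw [g_apply]
  refine cen_fixed hK hpos _ _ fun x => ?_
  rw [← g_apply]
  constructor
  · intro h
    rw [← hg] at h
    obtain ⟨y, hy, hxy⟩ := h
    rwa [← g.injective hxy]
  · intro h
    rw [← hg]; exact ⟨x, h, rfl⟩

lemma card_ge {K : Set (EuclideanSpace ℝ (Fin d))} (hd : 2 ≤ d) (hirr : SymmIrreducible K)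
    (c : EuclideanSpace ℝ (Fin d))
    (hc : ∀ g : EuclideanSpace ℝ (Fin d) ≃ᵃⁱ[ℝ] EuclideanSpace ℝ (Fin d), g '' K = K → g c = c)
    (S : Finset (EuclideanSpace ℝ (Fin d))) (hS : S.Nonempty) (hSc : c ∉ S)
    (hinv : ∀ g : EuclideanSpace ℝ (Fin d) ≃ᵃⁱ[ℝ] EuclideanSpace ℝ (Fin d), g '' K = K →
      ∀ x ∈ S, g x ∈ S) : d + 1 ≤ S.card := by
  classical
  have hmap : ∀ g : EuclideanSpace ℝ (Fin d) ≃ᵃⁱ[ℝ] EuclideanSpace ℝ (Fin d), g '' K = K →
      ∀ x, g.linearIsometryEquiv (x - c) = g x - c := by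
    intro g hg x
    rw [g_sub, hc g hg]
  set V : Submodule ℝ (EuclideanSpace ℝ (Fin d)) :=
    Submodule.span ℝ ((fun x => x - c) '' (S : Set (EuclideanSpace ℝ (Fin d)))) with hV
  have hVtop : V = ⊤ := by
    have hVinv : ∀ g : EuclideanSpace ℝ (Fin d) ≃ᵃⁱ[ℝ] EuclideanSpace ℝ (Fin d), g '' K = K →
        ∀ v ∈ V, g.linearIsometryEquiv v ∈ V := by
      intro g hg v hv
      rw [hV] at hv
      induction hv using Submodule.span_induction with
      | mem x hx =>
        obtain ⟨y, hy, rfl⟩ := hx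
        show g.linearIsometryEquiv (y - c) ∈ V
        rw [hmap g hg]
        exact Submodule.subset_span ⟨g y, hinv g hg y hy, rfl⟩
      | zero => rw [map_zero]; exact V.zero_mem
      | add x y _ _ hx hy => rw [map_add]; exact V.add_mem hx hy
      | smul a x _ hx => rw [map_smul]; exact V.smul_mem a hx
    rcases hirr V hVinv with h | h
    · exfalso
      obtain ⟨s, hs⟩ := hS
      have h1 : s - c ∈ V := Submodule.subset_span ⟨s, hs, rfl⟩
      rw [h, Submodule.mem_bot, sub_eq_zero] at h1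
      exact hSc (h1 ▸ hs)
    · exact h
  have hsum : ∀ g : EuclideanSpace ℝ (Fin d) ≃ᵃⁱ[ℝ] EuclideanSpace ℝ (Fin d), g '' K = K →
      g.linearIsometryEquiv (∑ s ∈ S, (s - c)) = ∑ s ∈ S, (s - c) := by
    intro g hg
    have himg : S.image g = S := by
      apply Finset.eq_of_subset_of_card_le
      · intro y hy
        obtain ⟨x, hx, rfl⟩ := Finset.mem_image.1 hy
        exact hinv g hg x hx
      · rw [Finset.card_image_of_injective _ g.injective]
    rw [map_sum]
    calc ∑ s ∈ S, g.linearIsometryEquiv (s - c) = ∑ s ∈ S, (g s - c) :=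
          Finset.sum_congr rfl fun s _ => hmap g hg s
      _ = ∑ s ∈ S.image g, (s - c) := by
          rw [Finset.sum_image fun x _ y _ h => g.injective h]
      _ = ∑ s ∈ S, (s - c) := by rw [himg]
  have hw0 : ∑ s ∈ S, (s - c) = 0 := by
    have hWinv : ∀ g : EuclideanSpace ℝ (Fin d) ≃ᵃⁱ[ℝ] EuclideanSpace ℝ (Fin d), g '' K = K →
        ∀ v ∈ Submodule.span ℝ {∑ s ∈ S, (s - c)},
          g.linearIsometryEquiv v ∈ Submodule.span ℝ {∑ s ∈ S, (s - c)} := by
      intro g hg v hv
      rw [Submodule.mem_span_singleton] at hv ⊢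
      obtain ⟨a, rfl⟩ := hv
      exact ⟨a, by rw [map_smul, hsum g hg]⟩
    rcases hirr _ hWinv with h | h
    · exact Submodule.span_singleton_eq_bot.1 h
    · by_contra hne0
      have h1 := finrank_span_singleton (K := ℝ) hne0
      rw [h, finrank_top, finrank_euclideanSpace_fin] at h1
      omega
  by_contra hlt
  push Not at hlt
  have hrange : Set.range (fun s : S => (s : EuclideanSpace ℝ (Fin d)) - c) =
      (fun x => x - c) '' (S : Set (EuclideanSpace ℝ (Fin d))) := by
    ext y; simp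
  have htop : ⊤ ≤ Submodule.span ℝ
      (Set.range (fun s : S => (s : EuclideanSpace ℝ (Fin d)) - c)) := by
    rw [hrange, ← hV, hVtop]
  have hcard : Fintype.card S = Module.finrank ℝ (EuclideanSpace ℝ (Fin d)) := by
    have h1 := finrank_range_le_card (R := ℝ) (fun s : S => (s : EuclideanSpace ℝ (Fin d)) - c)
    rw [Set.finrank, top_le_iff.1 htop, finrank_top, finrank_euclideanSpace_fin] at h1
    rw [finrank_euclideanSpace_fin]
    rw [Fintype.card_coe] at h1 ⊢
    omega
  have hli := linearIndependent_of_top_le_span_of_card_eq_finrank htop hcard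
  rw [Fintype.linearIndependent_iff] at hli
  obtain ⟨s, hs⟩ := hS
  have h2 := hli (fun _ => 1) (by
    simp only [one_smul]
    rw [← hw0]
    exact Finset.sum_coe_sort S (fun x => x - c)) ⟨s, hs⟩
  exact one_ne_zero h2

theorem two_orbits (hd : 2 ≤ d) {K : Set (EuclideanSpace ℝ (Fin d))}
    (hK : IsCompact K) (hconv : Convex ℝ K) (N : ℕ)
    {c : EuclideanSpace ℝ (Fin d)} (hci : c ∈ interior K)
    (hcg : ∀ g : EuclideanSpace ℝ (Fin d) ≃ᵃⁱ[ℝ] EuclideanSpace ℝ (Fin d), g '' K = K → g c = c)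
    (hN : ∀ S : Finset (EuclideanSpace ℝ (Fin d)), S.Nonempty → c ∉ S →
      (∀ g : EuclideanSpace ℝ (Fin d) ≃ᵃⁱ[ℝ] EuclideanSpace ℝ (Fin d), g '' K = K →
        ∀ x ∈ S, g x ∈ S) → N ≤ S.card) :
    HasNormalPoint K (2 * N) := by
  classical
  have hne : K.Nonempty := ⟨c, interior_subset hci⟩
  have hcK : c ∈ K := interior_subset hci
  haveI : Nontrivial (EuclideanSpace ℝ (Fin d)) := by
    apply Module.nontrivial_of_finrank_pos (R := ℝ)
    rw [finrank_euclideanSpace_fin]; omega
  -- farthest points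
  obtain ⟨x1, hx1K, hx1⟩ := hK.exists_isMaxOn hne (f := fun y => dist y c)
    (Continuous.continuousOn (by fun_prop))
  set R := dist x1 c with hR
  have hRmax : ∀ y ∈ K, dist y c ≤ R := fun y hy => hx1 hy
  -- nearest frontier points
  have hfK : frontier K ⊆ K := hK.isClosed.frontier_subset
  haveI : NoncompactSpace (EuclideanSpace ℝ (Fin d)) :=
    NormedSpace.noncompactSpace ℝ (EuclideanSpace ℝ (Fin d))
  have hKne : K ≠ Set.univ := hK.ne_univ
  have hfne : (frontier K).Nonempty := by
    rw [nonempty_frontier_iff]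
    exact ⟨hne, hKne⟩
  obtain ⟨y1, hy1f, hy1⟩ := (hK.of_isClosed_subset isClosed_frontier hfK).exists_isMinOn hfne
    (f := fun y => dist y c) (Continuous.continuousOn (by fun_prop))
  set r := dist y1 c with hr
  have hrmin : ∀ y ∈ frontier K, r ≤ dist y c := fun y hy => hy1 hy
  have hr0 : 0 < r := by
    rw [hr, dist_pos]
    rintro rfl
    exact hy1f.2 hci
  have hrR : r ≤ R := hRmax y1 (hfK hy1f)
  -- the ball of radius `r` is in `K`
  have hball : ball c r ⊆ K := by
    intro z hz
    by_contra hzK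
    obtain ⟨t, ht0, ht1, htf⟩ := seg_frontier hK.isClosed hci hzK
    have h1 := hrmin _ htf
    rw [dist_eq_norm, add_sub_cancel_left, norm_smul, Real.norm_eq_abs, abs_of_pos ht0,
      ← dist_eq_norm] at h1
    have h2 : dist z c < r := hz
    nlinarith [dist_nonneg (x := z) (y := c)]
  have hcball : closedBall c r ⊆ K := by
    rw [← closure_ball c hr0.ne']
    exact closure_minimal hball hK.isClosed
  have hPa : ∀ x ∈ (Set.univ : Set (EuclideanSpace ℝ (Fin d))),
      ∀ y ∈ (Set.univ : Set (EuclideanSpace ℝ (Fin d))), ∀ t : ℝ,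
        x + t • (y - x) ∈ (Set.univ : Set (EuclideanSpace ℝ (Fin d))) :=
    fun _ _ _ _ _ => Set.mem_univ _
  have hlt : ∀ x : EuclideanSpace ℝ (Fin d), x - c ≠ 0 →
      inner ℝ (x - c) c < inner ℝ (x - c) x := by
    intro x hx
    have h1 : (0:ℝ) < inner ℝ (x - c) (x - c) := real_inner_self_pos.2 hx
    rw [inner_sub_right] at h1
    linarith
  have hNR : ∀ x ∈ K, dist x c = R → OnNormal K c x := by
    intro x hx hxR
    have hxc : x - c ≠ 0 := by
      intro h
      rw [sub_eq_zero.1 h, dist_self] at hxR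
      linarith
    have hs : ∀ y ∈ K, inner ℝ (x - c) (y - x) ≤ 0 := fun y hy =>
      max_case hconv hPa (b := inner ℝ (x - c) c) hx (Set.mem_univ x) (hlt x hxc)
        (fun z hz _ _ => by
          rw [← dist_eq_norm, ← dist_eq_norm, hxR]; exact hRmax z hz) y hy (Set.mem_univ y)
    exact ⟨frontier_of_support hx hxc hs, x - c, hxc, hs, -1, by module⟩
  have hNr : ∀ x ∈ frontier K, dist x c = r → OnNormal K c x := by
    intro x hx hxr
    have hxc : x - c ≠ 0 := by
      intro h
      rw [sub_eq_zero.1 h, dist_self] at hxr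
      linarith
    have hs : ∀ y ∈ K, inner ℝ (x - c) (y - x) ≤ 0 := fun y hy =>
      min_case hK.isClosed hconv hPa hci (Set.mem_univ c) rfl hx (Set.mem_univ x) (hlt x hxc)
        (fun z hz _ _ => by
          rw [← dist_eq_norm, ← dist_eq_norm, hxr]; exact hrmin z hz) y hy (Set.mem_univ y)
    exact ⟨hx, x - c, hxc, hs, -1, by module⟩
  set SR : Set (EuclideanSpace ℝ (Fin d)) := {x | x ∈ K ∧ dist x c = R} with hSR
  set Sr : Set (EuclideanSpace ℝ (Fin d)) := {x | x ∈ frontier K ∧ dist x c = r} with hSr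
  have hfromInf : ∀ T : Set (EuclideanSpace ℝ (Fin d)), T.Infinite →
      (∀ x ∈ T, OnNormal K c x) →
      HasNormalPoint K (2 * N) := by
    intro T hT hTN
    obtain ⟨t, htT, htc⟩ := hT.exists_subset_card_eq (2 * N)
    exact ⟨c, hci, t, htc, fun x hx => hTN x (htT hx)⟩
  by_cases hinfR : SR.Infinite
  · exact hfromInf SR hinfR fun x hx => hNR x hx.1 hx.2
  by_cases hinfr : Sr.Infinite
  · exact hfromInf Sr hinfr fun x hx => hNr x hx.1 hx.2
  rw [Set.not_infinite] at hinfR hinfr
  have hgd : ∀ g : EuclideanSpace ℝ (Fin d) ≃ᵃⁱ[ℝ] EuclideanSpace ℝ (Fin d), g '' K = K →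
      ∀ x, dist (g x) c = dist x c := by
    intro g hg x
    have h1 := g.dist_map x c
    rwa [hcg g hg] at h1
  have hcR : N ≤ hinfR.toFinset.card := by
    refine hN _ ⟨x1, ?_⟩ ?_ ?_
    · rw [Set.Finite.mem_toFinset]; exact ⟨hx1K, rfl⟩
    · rw [Set.Finite.mem_toFinset]
      intro h
      have h2 := h.2
      rw [dist_self] at h2
      linarith
    · intro g hg x hx
      rw [Set.Finite.mem_toFinset] at hx ⊢
      refine ⟨?_, ?_⟩
      · rw [← hg]; exact ⟨x, hx.1, rfl⟩
      · rw [hgd g hg]; exact hx.2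
  have hcr : N ≤ hinfr.toFinset.card := by
    refine hN _ ⟨y1, ?_⟩ ?_ ?_
    · rw [Set.Finite.mem_toFinset]; exact ⟨hy1f, rfl⟩
    · rw [Set.Finite.mem_toFinset]
      intro h
      have h2 := h.2
      rw [dist_self] at h2
      linarith
    · intro g hg x hx
      rw [Set.Finite.mem_toFinset] at hx ⊢
      refine ⟨?_, ?_⟩
      · have h1 := g.toHomeomorph.image_frontier K
        have h2 : g.toHomeomorph '' K = K := hg
        rw [h2] at h1
        rw [← h1]; exact ⟨x, hx.1, rfl⟩
      · rw [hgd g hg]; exact hx.2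
  rcases hrR.lt_or_eq with hlt' | heq
  · have hdis : Disjoint hinfR.toFinset hinfr.toFinset := by
      rw [Finset.disjoint_left]
      intro x hx hx'
      rw [Set.Finite.mem_toFinset] at hx hx'
      have h1 := hx.2
      have h2 := hx'.2
      linarith
    have hcard : 2 * N ≤ (hinfR.toFinset ∪ hinfr.toFinset).card := by
      rw [Finset.card_union_of_disjoint hdis]; omega
    obtain ⟨t, htT, htc⟩ := Finset.exists_subset_card_eq hcard
    refine ⟨c, hci, t, htc, fun x hx => ?_⟩
    rcases Finset.mem_union.1 (htT hx) with h | h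
    · rw [Set.Finite.mem_toFinset] at h; exact hNR x h.1 h.2
    · rw [Set.Finite.mem_toFinset] at h; exact hNr x h.1 h.2
  · exfalso
    have hrank : 1 < Module.rank ℝ (EuclideanSpace ℝ (Fin d)) := by
      rw [← Module.finrank_eq_rank, finrank_euclideanSpace_fin]
      exact_mod_cast (by omega : 1 < d)
    have hpre := isPreconnected_sphere hrank c r
    have hsub : sphere c r ⊆ SR := fun x hx =>
      ⟨hcball (sphere_subset_closedBall hx), by rw [← heq]; exact hx⟩
    have hnt : (sphere c r).Nontrivial := by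
      obtain ⟨u, hu⟩ := exists_norm_eq (EuclideanSpace ℝ (Fin d)) hr0.le
      refine ⟨c + u, ?_, c - u, ?_, ?_⟩
      · rw [mem_sphere, dist_eq_norm, add_sub_cancel_left, hu]
      · rw [mem_sphere, dist_eq_norm, sub_sub_cancel_left, norm_neg, hu]
      · intro h
        have h1 : (2 : ℝ) • u = 0 := by
          have : (2 : ℝ) • u = (c + u) - (c - u) := by module
          rw [this, h, sub_self]
        rcases smul_eq_zero.1 h1 with h2 | h2
        · norm_num at h2
        · rw [h2, norm_zero] at hu; linarith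
    exact (hpre.infinite_of_nontrivial hnt) (hinfR.subset hsub)

theorem irreducible_case (hd : 2 ≤ d) {K : Set (EuclideanSpace ℝ (Fin d))}
    (hK : IsCompact K) (hconv : Convex ℝ K) (hint : (interior K).Nonempty)
    (hirr : SymmIrreducible K) : HasNormalPoint K (2 * d + 2) := by
  have hpos : volume K ≠ 0 := ((isOpen_interior.measure_pos volume hint).trans_le
    (measure_mono interior_subset)).ne'
  have h := two_orbits hd hK hconv (d + 1) (cen_mem hK hconv hint)
    (fun g hg => g_cen hK hpos g hg)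
    (fun S hS hcS hinv => card_ge hd hirr (cen K) (fun g hg => g_cen hK hpos g hg) S hS hcS hinv)
  exact h

theorem orbit_case (hd : 2 ≤ d) {K : Set (EuclideanSpace ℝ (Fin d))}
    (hK : IsCompact K) (hconv : Convex ℝ K) (hint : (interior K).Nonempty)
    (N : ℕ) (c : EuclideanSpace ℝ (Fin d))
    (hc : ∀ x : EuclideanSpace ℝ (Fin d), x ≠ c → ∀ S : Finset (EuclideanSpace ℝ (Fin d)),
      (∀ g : EuclideanSpace ℝ (Fin d) ≃ᵃⁱ[ℝ] EuclideanSpace ℝ (Fin d), g '' K = K → g x ∈ S) →
      N ≤ S.card) : HasNormalPoint K (2 * N) := by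
  have hpos : volume K ≠ 0 := ((isOpen_interior.measure_pos volume hint).trans_le
    (measure_mono interior_subset)).ne'
  have hcen := cen_mem hK hconv hint
  refine two_orbits hd hK hconv N hcen (fun g hg => g_cen hK hpos g hg) ?_
  intro S hS hcS hinv
  obtain ⟨x, hx⟩ := hS
  by_cases hxc : x = c
  · by_cases hcc : cen K = c
    · exact absurd (by rw [hcc, ← hxc]; exact hx) hcS
    · have h1 := hc (cen K) hcc {cen K} (fun g hg => by
        rw [g_cen hK hpos g hg]; exact Finset.mem_singleton_self _)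
      rw [Finset.card_singleton] at h1
      exact h1.trans (Finset.card_pos.2 ⟨x, hx⟩)
  · exact hc x hxc S (fun g hg => hinv g hg x hx)

/-- The reflection of `x` in the hyperplane of all `y` with `⟪v, y⟫ = b`. -/
noncomputable def mirror (v : EuclideanSpace ℝ (Fin d)) (b : ℝ) (x : EuclideanSpace ℝ (Fin d)) :
    EuclideanSpace ℝ (Fin d) :=
  x - (2 * (inner ℝ v x - b) / ‖v‖ ^ 2) • v

end main

/-- Convex bodies with enough symmetries have many concurrent normals.
(1) `d - 1` mirror hyperplanes with linearly independent normal vectors give a `2 d`-normal point.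
(2) If every point other than `c` has at least `N` images under the isometries mapping `K` onto
itself, there is a `2 N`-normal point.
(3) If these isometries act irreducibly, there is a `(2 d + 2)`-normal point. -/
theorem result (d : ℕ) (hd : 2 ≤ d) (K : Set (EuclideanSpace ℝ (Fin d)))
    (hK : IsCompact K) (hconv : Convex ℝ K) (hint : (interior K).Nonempty) :
    (∀ (v : Fin (d - 1) → EuclideanSpace ℝ (Fin d)) (b : Fin (d - 1) → ℝ),
      LinearIndependent ℝ v → (∀ i, ∀ x ∈ K, mirror (v i) (b i) x ∈ K) →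
      HasNormalPoint K (2 * d)) ∧
    (∀ (N : ℕ) (c : EuclideanSpace ℝ (Fin d)),
      (∀ x : EuclideanSpace ℝ (Fin d), x ≠ c → ∀ S : Finset (EuclideanSpace ℝ (Fin d)),
        (∀ g : EuclideanSpace ℝ (Fin d) ≃ᵃⁱ[ℝ] EuclideanSpace ℝ (Fin d), g '' K = K → g x ∈ S) →
        N ≤ S.card) →
      HasNormalPoint K (2 * N)) ∧
    (SymmIrreducible K → HasNormalPoint K (2 * d + 2)) :=
  ⟨fun v b hv href => mirrors hd hK hconv hint v hv b href,
    fun N c hc => orbit_case hd hK hconv hint N c hc,
    fun hirr => irreducible_case hd hK hconv hint hirr⟩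

end Pool.Agent.Results.MP_00eb82_gt.SymmetricBodies
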